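import Mathlib

/-!
# Smallest graph with every vertex in a red and a blue `K_k`

We determine `f(k) = 4(k-1)` for every `k ≥ 2`.
-/

namespace Pool.Agent.Results.MP_e26f8a_co.TwoCliqueCover

open Finset

/-- `S` is a `K_k` of colour `b` in the graph `G` whose edges are coloured by `c`
(`true` is red, `false` is blue): it has exactly `k` vertices, which are pairwise adjacent in `G`,
and each edge of `G` between two of them has colour `b`. -/
def IsMonoClique {V : Type} (G : SimpleGraph V) (c : G.edgeSet → Bool) (b : Bool) (k : ℕ)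
    (S : Finset V) : Prop :=
  S.card = k ∧ ∀ x ∈ S, ∀ y ∈ S, x ≠ y →
    ∃ h : G.Adj x y, c ⟨s(x, y), (SimpleGraph.mem_edgeSet G).2 h⟩ = b

/-- There are a graph on `N` vertices and a red-blue colouring of its edges such that every vertex
lies in a red `K_k` and in a blue `K_k`. -/
def Good (k N : ℕ) : Prop :=
  ∃ (G : SimpleGraph (Fin N)) (c : G.edgeSet → Bool), ∀ v : Fin N,
    (∃ S : Finset (Fin N), v ∈ S ∧ IsMonoClique G c true k S) ∧
    (∃ S : Finset (Fin N), v ∈ S ∧ IsMonoClique G c false k S)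

/-- Abstract double counting: two covers by `k`-sets with cross intersections at most one. -/
theorem cover_bound {V : Type} [Fintype V] [DecidableEq V] [Nonempty V] (k : ℕ) (hk : 1 ≤ k)
    (P Q : Finset V → Prop)
    (hP : ∀ v, ∃ S, v ∈ S ∧ P S) (hQ : ∀ v, ∃ S, v ∈ S ∧ Q S)
    (hPk : ∀ S, P S → S.card = k) (hQk : ∀ S, Q S → S.card = k)
    (hPQ : ∀ S T, P S → Q T → (S ∩ T).card ≤ 1) :
    4 * (k - 1) ≤ Fintype.card V := by
  classical
  -- families of red cliques covering everything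
  set C : Finset (Finset (Finset V)) :=
    (univ : Finset (Finset (Finset V))).filter
      (fun F => (∀ S ∈ F, P S) ∧ ∀ v, ∃ S ∈ F, v ∈ S) with hC
  have hCne : C.Nonempty := by
    refine ⟨(univ : Finset (Finset V)).filter P, ?_⟩
    rw [hC, mem_filter]
    refine ⟨mem_univ _, ?_, ?_⟩
    · intro S hS
      exact (mem_filter.1 hS).2
    · intro v
      obtain ⟨S, hv, hS⟩ := hP v
      exact ⟨S, mem_filter.2 ⟨mem_univ _, hS⟩, hv⟩
  obtain ⟨F, hFC, hFmin⟩ := Finset.exists_min_image C (fun F => F.card) hCne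
  have hF := (mem_filter.1 hFC).2
  obtain ⟨hFP, hFcov⟩ := hF
  -- multiplicity
  let r : V → ℕ := fun w => (F.filter (fun S => w ∈ S)).card
  have hr1 : ∀ w, 1 ≤ r w := by
    intro w
    obtain ⟨S, hS, hw⟩ := hFcov w
    exact Finset.card_pos.2 ⟨S, mem_filter.2 ⟨hS, hw⟩⟩
  -- double counting over a set
  have hdc : ∀ T : Finset V, ∑ w ∈ T, r w = ∑ S ∈ F, (S ∩ T).card := by
    intro T
    simp only [r, Finset.card_filter]
    rw [Finset.sum_comm]
    refine Finset.sum_congr rfl (fun S _ => ?_)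
    rw [← Finset.card_filter]
    congr 1
    ext x
    simp [and_comm]
  have hsum : ∑ w, r w = k * F.card := by
    rw [hdc univ]
    rw [Finset.sum_congr rfl (fun S hS => by rw [inter_univ, hPk S (hFP S hS)])]
    simp [mul_comm]
  have hup : ∀ w, r w + (k - 1) ≤ F.card := by
    intro w
    obtain ⟨T, hwT, hT⟩ := hQ w
    have h1 : ∑ v ∈ T, r v ≤ F.card := by
      rw [hdc T]
      calc ∑ S ∈ F, (S ∩ T).card ≤ ∑ S ∈ F, 1 :=
            Finset.sum_le_sum (fun S hS => hPQ S T (hFP S hS) hT)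
        _ = F.card := by simp
    have h2 : r w + (k - 1) ≤ ∑ v ∈ T, r v := by
      rw [← Finset.add_sum_erase T r hwT]
      have h3 : (T.erase w).card = k - 1 := by
        rw [Finset.card_erase_of_mem hwT, hQk T hT]
      have h4 : (T.erase w).card ≤ ∑ v ∈ T.erase w, r v := by
        calc (T.erase w).card = ∑ v ∈ T.erase w, 1 := by simp
          _ ≤ ∑ v ∈ T.erase w, r v := Finset.sum_le_sum (fun v _ => hr1 v)
      omega
    omega
  -- vertices covered exactly once
  set Z : Finset V := univ.filter (fun w => r w = 1) with hZ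
  have hpriv : ∀ S ∈ F, ∃ w, w ∈ S ∧ ∀ S' ∈ F, w ∈ S' → S' = S := by
    intro S hS
    by_contra hcon
    push Not at hcon
    have hmem : F.erase S ∈ C := by
      rw [hC, mem_filter]
      refine ⟨mem_univ _, fun S' hS' => hFP S' (mem_of_mem_erase hS'), fun v => ?_⟩
      obtain ⟨S', hS', hv⟩ := hFcov v
      by_cases hE : S' = S
      · subst hE
        obtain ⟨S'', hS'', hv'', hne⟩ := hcon v hv
        exact ⟨S'', mem_erase.2 ⟨hne, hS''⟩, hv''⟩
      · exact ⟨S', mem_erase.2 ⟨hE, hS'⟩, hv⟩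
    have h5 := hFmin _ hmem
    have h6 := Finset.card_erase_lt_of_mem hS
    omega
  have hZcard : F.card ≤ Z.card := by
    choose! f hf1 hf2 using hpriv
    refine Finset.card_le_card_of_injOn f ?_ ?_
    · intro S hS
      have hS' : S ∈ F := hS
      rw [Finset.mem_coe, hZ, mem_filter]
      refine ⟨mem_univ _, ?_⟩
      have : F.filter (fun S' => f S ∈ S') = {S} := by
        ext S'
        rw [mem_filter, mem_singleton]
        constructor
        · rintro ⟨h1, h2⟩
          exact hf2 S hS' S' h1 h2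
        · rintro rfl
          exact ⟨hS', hf1 _ hS'⟩
      show (F.filter (fun S' => f S ∈ S')).card = 1
      rw [this, card_singleton]
    · intro S hS S' hS' hEq
      have h7 : f S ∈ S' := by
        rw [hEq]; exact hf1 S' hS'
      exact (hf2 S hS S' hS' h7).symm
  -- upper bound for the sum
  obtain ⟨w0⟩ := (inferInstance : Nonempty V)
  have hτ : k ≤ F.card := by
    have := hup w0
    have := hr1 w0
    omega
  obtain ⟨t, ht⟩ : ∃ t, F.card = t + k := ⟨F.card - k, by omega⟩
  have hle : ∑ w, r w ≤ Z.card + (Fintype.card V - Z.card) * (t + 1) := by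
    have hsplit : ∑ w, r w = ∑ w ∈ Z, r w + ∑ w ∈ univ.filter (fun w => ¬ r w = 1), r w := by
      rw [hZ]
      exact (Finset.sum_filter_add_sum_filter_not univ (fun w => r w = 1) r).symm
    have hA : ∑ w ∈ Z, r w = Z.card := by
      rw [Finset.sum_congr rfl (fun w hw => (mem_filter.1 hw).2), Finset.sum_const, smul_eq_mul,
        mul_one]
    have hB : ∑ w ∈ univ.filter (fun w => ¬ r w = 1), r w ≤
        (Fintype.card V - Z.card) * (t + 1) := by
      have hc : (univ.filter (fun w => ¬ r w = 1)).card = Fintype.card V - Z.card := by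
        have := Finset.card_filter_add_card_filter_not (s := (univ : Finset V)) (fun w => r w = 1)
        rw [hZ]
        rw [Finset.card_univ] at this
        omega
      calc ∑ w ∈ univ.filter (fun w => ¬ r w = 1), r w
          ≤ ∑ w ∈ univ.filter (fun w => ¬ r w = 1), (t + 1) := by
            refine Finset.sum_le_sum (fun w _ => ?_)
            have := hup w
            omega
        _ = (Fintype.card V - Z.card) * (t + 1) := by
            rw [Finset.sum_const, hc, smul_eq_mul]
    omega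
  have hZle : Z.card ≤ Fintype.card V := by
    rw [hZ]
    exact Finset.card_le_univ _
  obtain ⟨m, hm⟩ : ∃ m, Fintype.card V = Z.card + m := ⟨Fintype.card V - Z.card, by omega⟩
  obtain ⟨j, hj⟩ : ∃ j, k = j + 1 := ⟨k - 1, by omega⟩
  obtain ⟨z, hz⟩ : ∃ z, Z.card = F.card + z := ⟨Z.card - F.card, by omega⟩
  rw [hsum, hm, Nat.add_sub_cancel_left] at hle
  rw [hm]
  subst hj
  rw [Nat.add_sub_cancel]
  rw [hz, ht] at hle ⊢
  -- `(j+1)(t+j+1) ≤ t+j+1+z + m(t+1)`, to show `4 j ≤ t+j+1+z+m`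
  have key : (t + 1 + j) * (t + 1 + j) ≤ (t + (j + 1) + z + m) * (t + 1) := by
    nlinarith [hle, Nat.zero_le (z * t)]
  have h8 : 4 * j * (t + 1) ≤ (t + 1 + j) * (t + 1 + j) := by
    zify
    nlinarith [sq_nonneg ((t : ℤ) + 1 - j)]
  exact Nat.le_of_mul_le_mul_right (le_trans h8 key) (Nat.succ_pos t)

/-- Lower bound. -/
theorem lower (k N : ℕ) (hk : 2 ≤ k) (hN : 1 ≤ N) (h : Good k N) : 4 * (k - 1) ≤ N := by
  obtain ⟨G, c, hGc⟩ := h
  have : Nonempty (Fin N) := ⟨⟨0, hN⟩⟩
  have := cover_bound (V := Fin N) k (by omega) (IsMonoClique G c true k)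
    (IsMonoClique G c false k) (fun v => (hGc v).1) (fun v => (hGc v).2)
    (fun S hS => hS.1) (fun S hS => hS.1)
    (by
      intro S T hS hT
      rw [Finset.card_le_one]
      intro a ha b hb
      by_contra hab
      rw [mem_inter] at ha hb
      obtain ⟨h1, h1'⟩ := hS.2 a ha.1 b hb.1 hab
      obtain ⟨h2, h2'⟩ := hT.2 a ha.2 b hb.2 hab
      rw [h1'] at h2'
      exact Bool.noConfusion h2')
  simpa using this

/-- Colour code of a pair of parts: `0` non-edge, `1` red, `2` blue. -/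
def code : Fin 4 → Fin 4 → ℕ
  | 0, 0 => 2
  | 0, 1 => 1
  | 0, 2 => 0
  | 0, 3 => 2
  | 1, 0 => 1
  | 1, 1 => 1
  | 1, 2 => 2
  | 1, 3 => 0
  | 2, 0 => 0
  | 2, 1 => 2
  | 2, 2 => 2
  | 2, 3 => 1
  | 3, 0 => 2
  | 3, 1 => 0
  | 3, 2 => 1
  | 3, 3 => 1

theorem code_symm (a b : Fin 4) : code a b = code b a := by
  fin_cases a <;> fin_cases b <;> rfl

/-- Transport of a symmetric colour code to the required data. -/
theorem good_of_code (k N : ℕ) (col : Fin N → Fin N → ℕ) (hsymm : ∀ x y, col x y = col y x)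
    (hred : ∀ v, ∃ S : Finset (Fin N), v ∈ S ∧ S.card = k ∧
      ∀ x ∈ S, ∀ y ∈ S, x ≠ y → col x y = 1)
    (hblue : ∀ v, ∃ S : Finset (Fin N), v ∈ S ∧ S.card = k ∧
      ∀ x ∈ S, ∀ y ∈ S, x ≠ y → col x y = 2) : Good k N := by
  let G : SimpleGraph (Fin N) :=
    { Adj := fun x y => x ≠ y ∧ col x y ≠ 0
      symm := ⟨fun x y h => ⟨h.1.symm, by rw [hsymm]; exact h.2⟩⟩
      loopless := ⟨fun x h => h.1 rfl⟩ }
  let c0 : Sym2 (Fin N) → Bool :=
    Sym2.lift ⟨fun x y => decide (col x y = 1), fun x y => by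
      show decide (col x y = 1) = decide (col y x = 1)
      rw [hsymm x y]⟩
  refine ⟨G, fun e => c0 e.1, fun v => ⟨?_, ?_⟩⟩
  · obtain ⟨S, hv, hc, hS⟩ := hred v
    refine ⟨S, hv, hc, fun x hx y hy hxy => ?_⟩
    have h1 := hS x hx y hy hxy
    refine ⟨⟨hxy, by rw [h1]; decide⟩, ?_⟩
    show decide (col x y = 1) = true
    rw [h1]; rfl
  · obtain ⟨S, hv, hc, hS⟩ := hblue v
    refine ⟨S, hv, hc, fun x hx y hy hxy => ?_⟩
    have h1 := hS x hx y hy hxy
    refine ⟨⟨hxy, by rw [h1]; decide⟩, ?_⟩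
    show decide (col x y = 1) = false
    rw [h1]; rfl

theorem upper (k : ℕ) (hk : 2 ≤ k) : Good k (4 * (k - 1)) := by
  obtain ⟨m, rfl⟩ : ∃ m, k = m + 2 := ⟨k - 2, by omega⟩
  have hm : m + 2 - 1 = m + 1 := by omega
  rw [hm]
  let e : Fin 4 × Fin (m + 1) ≃ Fin (4 * (m + 1)) := finProdFinEquiv
  let col : Fin (4 * (m + 1)) → Fin (4 * (m + 1)) → ℕ :=
    fun x y => code (e.symm x).1 (e.symm y).1
  -- the basic sets: a single vertex together with a whole part
  have key : ∀ (b : ℕ) (p q : Fin 4) (i : Fin (m + 1)), p ≠ q → code p q = b → code q q = b →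
      ∃ S : Finset (Fin (4 * (m + 1))), e (p, i) ∈ S ∧ (∀ j, e (q, j) ∈ S) ∧ S.card = m + 2 ∧
        ∀ x ∈ S, ∀ y ∈ S, x ≠ y → col x y = b := by
    intro b p q i hpq h1 h2
    refine ⟨insert (e (p, i)) ((univ : Finset (Fin (m + 1))).image (fun j => e (q, j))),
      mem_insert_self _ _, ?_, ?_, ?_⟩
    · intro j
      exact mem_insert_of_mem (mem_image.2 ⟨j, mem_univ _, rfl⟩)
    · rw [card_insert_of_notMem, card_image_of_injective, card_univ, Fintype.card_fin]
      · intro j j' h
        have := e.injective h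
        simpa using this
      · intro h
        obtain ⟨j, _, hj⟩ := mem_image.1 h
        have := e.injective hj
        exact hpq (by simpa using (congrArg Prod.fst this).symm)
    · have hcase : ∀ x ∈ insert (e (p, i))
          ((univ : Finset (Fin (m + 1))).image (fun j => e (q, j))),
          x = e (p, i) ∨ (e.symm x).1 = q := by
        intro x hx
        rcases mem_insert.1 hx with h | h
        · exact Or.inl h
        · obtain ⟨j, _, hj⟩ := mem_image.1 h
          right
          rw [← hj, Equiv.symm_apply_apply]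
      intro x hx y hy hxy
      show code (e.symm x).1 (e.symm y).1 = b
      rcases hcase x hx with hx' | hx' <;> rcases hcase y hy with hy' | hy'
      · exact absurd (hx'.trans hy'.symm) hxy
      · rw [hx', Equiv.symm_apply_apply, hy']; exact h1
      · rw [hy', Equiv.symm_apply_apply, hx', code_symm]; exact h1
      · rw [hx', hy']; exact h2
  apply good_of_code (m + 2) (4 * (m + 1)) col
  · intro x y
    exact code_symm _ _
  · intro v
    obtain ⟨⟨p, i⟩, rfl⟩ := e.surjective v
    fin_cases p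
    · obtain ⟨S, h1, -, h3, h4⟩ := key 1 0 1 i (by decide) rfl rfl
      exact ⟨S, h1, h3, h4⟩
    · obtain ⟨S, -, h2, h3, h4⟩ := key 1 0 1 i (by decide) rfl rfl
      exact ⟨S, h2 i, h3, h4⟩
    · obtain ⟨S, h1, -, h3, h4⟩ := key 1 2 3 i (by decide) rfl rfl
      exact ⟨S, h1, h3, h4⟩
    · obtain ⟨S, -, h2, h3, h4⟩ := key 1 2 3 i (by decide) rfl rfl
      exact ⟨S, h2 i, h3, h4⟩
  · intro v
    obtain ⟨⟨p, i⟩, rfl⟩ := e.surjective v
    fin_cases p
    · obtain ⟨S, -, h2, h3, h4⟩ := key 2 3 0 i (by decide) rfl rfl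
      exact ⟨S, h2 i, h3, h4⟩
    · obtain ⟨S, h1, -, h3, h4⟩ := key 2 1 2 i (by decide) rfl rfl
      exact ⟨S, h1, h3, h4⟩
    · obtain ⟨S, -, h2, h3, h4⟩ := key 2 1 2 i (by decide) rfl rfl
      exact ⟨S, h2 i, h3, h4⟩
    · obtain ⟨S, h1, -, h3, h4⟩ := key 2 3 0 i (by decide) rfl rfl
      exact ⟨S, h1, h3, h4⟩

/-- For every `k ≥ 2`, the least number `N ≥ 1` of vertices of a graph with a red-blue colouring
of its edges in which every vertex lies in a red `K_k` and in a blue `K_k` is `4(k-1)`. -/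
theorem result (k : ℕ) (hk : 2 ≤ k) : IsLeast {N : ℕ | 1 ≤ N ∧ Good k N} (4 * (k - 1)) := by
  refine ⟨⟨by omega, upper k hk⟩, ?_⟩
  rintro N ⟨hN, h⟩
  exact lower k N hk hN h

end Pool.Agent.Results.MP_e26f8a_co.TwoCliqueCover
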